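import Mathlib
import Pool.Agent.InvCF.Core
import Pool.Agent.GAvg.AverageCase

/-!
The predicates in `E2Star` are exactly the predicates whose characteristic function is the value
of a regular continued fraction of polynomial length modulo a prime (with `1 / 0 = 0`) whose
entries are given by a bounded formula. Hence `Delta0 = E2Star` is a statement on continued
fractions modulo primes.
-/

set_option autoImplicit false

namespace Pool.Agent.Results.MP_a56640_lc.ContinuedFractions

open Pool.Agent.Grz Pool.Agent.InvCF MvPolynomial Filter Finset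
open scoped Classical

/-- The characteristic function of `R` is the value of a continued fraction: there are a
polynomial `P` and a function `b` with bounded-formula graph such that, for the least prime
`p > P v`, the recursion `u_0 = 0`, `u_(t+1) = b v t + 1 / u_t` modulo `p` has `u_(P v) = 1` if
`R v`, and `u_(P v) = 0` if not. -/
def HasCFForm (n : ℕ) (R : (Fin n → ℕ) → Prop) : Prop :=
  ∃ (P : MvPolynomial (Fin n) ℕ) (b : (Fin n → ℕ) → ℕ → ℕ),
    Delta0 (n + 2) (fun w => w 0 = b (fun i => w i.succ.succ) (w 1)) ∧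
    (∀ v t, b v t < nextPrime (MvPolynomial.eval v P)) ∧
    ∀ v, (R v → cf (nextPrime (MvPolynomial.eval v P)) (b v) (MvPolynomial.eval v P) = 1) ∧
      (¬ R v → cf (nextPrime (MvPolynomial.eval v P)) (b v) (MvPolynomial.eval v P) = 0)

theorem prime_pred_add (x : ℕ) : nextPrime x - 1 + 1 = nextPrime x := by
  have := (nextPrime_prime x).pos
  omega

/-- `cf` at a definable time has a value in `E2`. -/
theorem cf_val_e2 {n : ℕ} {p t : (Fin n → ℕ) → ℕ} {b : (Fin n → ℕ) → ℕ → ℕ} (hp : DFun n p)
    (hpp : ∀ v, (p v).Prime)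
    (hb : Delta0 (n + 2) (fun w => w 0 = b (fun i => w i.succ.succ) (w 1)))
    (hbp : ∀ v t, b v t < p v) (ht : DFun n t) (c : ℕ) (hc : c < 2) :
    E2Star n (fun v => cf (p v) (b v) (t v) = (c : ZMod (p v))) := by
  have hb' : DFun (n + 1) (fun w => b (fun i => w i.succ) (w 0)) := by
    refine DFun.ofGraph hp.weak (fun w => (hbp _ _).le) ?_
    exact hb
  have h1 := cf_e2 hp hpp hb'
  have h2 : E2 n (fun v => (cf (p v) (b v) (t v)).val) :=
    E2.substFirst (F := fun t v => (cf (p v) (b v) t).val) h1 ht.e2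
  refine (E2Star.eqFun h2 (E2.const c)).of_iff ?_
  intro v
  have : Fact (p v).Prime := ⟨hpp v⟩
  have hcp : c < p v := lt_of_lt_of_le hc (hpp v).two_le
  constructor
  · intro h
    rw [h, ZMod.val_natCast, Nat.mod_eq_of_lt hcp]
  · intro h
    rw [← h, ZMod.natCast_zmod_val]

theorem cfForm_of_e2Star {n : ℕ} {R : (Fin n → ℕ) → Prop} (hR : E2Star n R) :
    HasCFForm n R := by
  obtain ⟨f, g, Q, hf, hg, hcore⟩ := core hR
  set P : MvPolynomial (Fin n) ℕ := C 36 * (C 2 * Q + C 2) ^ 2 + C 24 * (C 2 * Q + C 2) + C 7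
    with hP
  have hPe : ∀ v, MvPolynomial.eval v P = 36 * (2 * MvPolynomial.eval v Q + 2) ^ 2 +
      24 * (2 * MvPolynomial.eval v Q + 2) + 7 := by
    intro v; simp [hP]
  refine ⟨P, fun v t => ctf f (nextPrime (MvPolynomial.eval v P))
    (2 * MvPolynomial.eval v Q + 1) (2 * g v) t, ?_, ?_, ?_⟩
  · have h1 := DFun.coefTour (n := n + 1) hf
      (p := fun w => nextPrime (MvPolynomial.eval (fun i => w i.succ) P) - 1)
      (z := fun w => 2 * MvPolynomial.eval (fun i => w i.succ) Q + 1)
      (T := fun w => 2 * g (fun i => w i.succ)) (t := fun w => w 0)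
      ((DFun.nextPrime (DFun.ofPoly P).weak).sub (DFun.const 1))
      (((DFun.const 2).mul (DFun.ofPoly Q).weak).add (DFun.const 1))
      ((DFun.const 2).mul hg.weak) (DFun.proj 0)
    refine h1.graph.of_iff ?_
    intro w
    simp only [prime_pred_add]
    exact Iff.rfl
  · intro v t
    exact ctf_lt (nextPrime_prime _).pos
  · intro v
    have h1 := lt_nextPrime (MvPolynomial.eval v P)
    have h2 := hPe v
    refine hcore v _ _ (nextPrime_prime _) ?_ (by rw [hPe v])
    nlinarith [Nat.zero_le (MvPolynomial.eval v Q)]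

theorem e2Star_of_cfForm {n : ℕ} {R : (Fin n → ℕ) → Prop} (h : HasCFForm n R) :
    E2Star n R := by
  obtain ⟨P, b, hb, hbp, hR⟩ := h
  refine (cf_val_e2 (DFun.nextPrime (DFun.ofPoly P)) (fun v => nextPrime_prime _) hb hbp
    (DFun.ofPoly P) 1 (by omega)).of_iff ?_
  intro v
  have : Fact (nextPrime (MvPolynomial.eval v P)).Prime := ⟨nextPrime_prime _⟩
  constructor
  · intro h
    rw [(hR v).1 h]; simp
  · intro h
    by_contra hv
    rw [(hR v).2 hv] at h
    simp at h

/-- Closure under vanishing of continued fractions gives `Delta0 = E2Star`. -/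
theorem delta0_of_cf
    (H : ∀ b : ℕ → ℕ → ℕ, Delta0 3 (fun w => w 0 = b (w 1) (w 2)) →
      (∀ z t, b z t < nextPrime z) →
      Delta0 1 (fun v => cf (nextPrime (v 0)) (b (v 0)) (v 0) = 0))
    {n : ℕ} {R : (Fin n → ℕ) → Prop} (hR : E2Star n R) : Delta0 n R := by
  obtain ⟨f, g, Q, hf, hg, hcore⟩ := core hR
  set P : MvPolynomial (Fin n) ℕ := C 36 * (C 2 * Q + C 2) ^ 2 + C 24 * (C 2 * Q + C 2) + C 7
    with hP
  have hPe : ∀ v, MvPolynomial.eval v P = 36 * (2 * MvPolynomial.eval v Q + 2) ^ 2 +
      24 * (2 * MvPolynomial.eval v Q + 2) + 7 := by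
    intro v; simp [hP]
  -- the vector coded by `z`
  let d : ℕ → Fin n → ℕ := fun z => dec n (Nat.unpair z).1
  have hd : ∀ i, DFun 2 (fun w => d (w 0) i) := fun i => DFun.dec (DFun.proj 0).unpair1 i
  have h1 := DFun.coefTour (n := 2) hf
    (p := fun w => nextPrime (w 0) - 1)
    (z := fun w => 2 * MvPolynomial.eval (d (w 0)) Q + 1)
    (T := fun w => 2 * g (d (w 0))) (t := fun w => w 1)
    ((DFun.nextPrime (DFun.proj 0)).sub (DFun.const 1))
    (((DFun.const 2).mul (DFun.evalPoly Q hd)).add (DFun.const 1))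
    ((DFun.const 2).mul (hg.comp hd)) (DFun.proj 1)
  have h2 := H (fun z t => ctf f (nextPrime z) (2 * MvPolynomial.eval (d z) Q + 1)
    (2 * g (d z)) t) (by
      refine h1.graph.of_iff ?_
      intro w
      simp only [prime_pred_add]
      exact Iff.rfl) (fun z t => ctf_lt (nextPrime_prime _).pos)
  have h3 : DFun n (fun v => Nat.pair (enc n (fun i => v i)) (MvPolynomial.eval v P)) :=
    (DFun.enc (fun i => DFun.proj i)).pair (DFun.ofPoly P)
  refine ((Delta0.comp1 (P := fun z => cf (nextPrime z) (fun t => ctf f (nextPrime z)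
    (2 * MvPolynomial.eval (d z) Q + 1) (2 * g (d z)) t) z = 0) h2 h3).not).of_iff ?_
  intro v
  set z := Nat.pair (enc n (fun i => v i)) (MvPolynomial.eval v P) with hz
  have hdz : d z = v := by
    simp only [d, hz, Nat.unpair_pair]
    exact dec_enc n v
  have hPz : MvPolynomial.eval v P ≤ z := Nat.right_le_pair _ _
  have h4 := lt_nextPrime z
  have h5 := hPe v
  have : Fact (nextPrime z).Prime := ⟨nextPrime_prime _⟩
  have h6 := hcore v (nextPrime z) z (nextPrime_prime _)
    (by nlinarith [Nat.zero_le (MvPolynomial.eval v Q)]) (by omega)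
  rw [hdz]
  constructor
  · intro hv h
    have h7 := h6.1 hv
    exact one_ne_zero (h7.symm.trans h)
  · intro h
    by_contra hv
    exact h (h6.2 hv)

/-- **Main theorem.** (A) A predicate is in `E2Star` if and only if its characteristic function is
the value of a continued fraction `u_0 = 0`, `u_(t+1) = b v t + 1 / u_t` (with `1 / 0 = 0`) of
length `P v` modulo the least prime `p > P v`, where `P` is a polynomial and `b` has a
bounded-formula graph and values `< p`.

(B) Let `0 < γ ≤ 1/2`. The following are equivalent.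
1. `Delta0 = E2Star`.
2. For every `b : ℕ → ℕ → ℕ` with bounded-formula graph and `b z t < p z`, where `p z` is the least
   prime `> z`, the set of all `z` with `u_z = 0` modulo `p z` for the recursion given by `b z`
   is in `Delta0`.
3. For every polynomial `P` and every `b` with bounded-formula graph and
   `b x t < p`, `p` the least prime `> P x`, the set of all `x` with `u_(P x) = 0` modulo `p` can be
   predicted: there are a bounded formula `ψ` and `c` such that for all large `N` there is
   `a ≤ (N + 2) ^ c` for which `ψ (a, x)` is correct for at least `(1/2 + γ) N` of the `x < N`. -/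
theorem result :
    (∀ (n : ℕ) (R : (Fin n → ℕ) → Prop), E2Star n R ↔ HasCFForm n R) ∧
    ∀ γ : ℝ, 0 < γ → γ ≤ 1 / 2 → List.TFAE [
      ∀ (k : ℕ) (R : (Fin k → ℕ) → Prop), Delta0 k R ↔ E2Star k R,
      ∀ b : ℕ → ℕ → ℕ, Delta0 3 (fun w => w 0 = b (w 1) (w 2)) →
        (∀ z t, b z t < nextPrime z) →
        Delta0 1 (fun v => cf (nextPrime (v 0)) (b (v 0)) (v 0) = 0),
      ∀ (P : Polynomial ℕ) (b : ℕ → ℕ → ℕ), Delta0 3 (fun w => w 0 = b (w 1) (w 2)) →
        (∀ x t, b x t < nextPrime (P.eval x)) →
        ∃ (c : ℕ) (ψ : (Fin 2 → ℕ) → Prop), Delta0 2 ψ ∧ ∀ᶠ N : ℕ in atTop,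
          ∃ a : ℕ, a ≤ (N + 2) ^ c ∧ (1 / 2 + γ) * (N : ℝ) ≤
            (#{x ∈ range N | ψ ![a, x] ↔
              cf (nextPrime (P.eval x)) (b x) (P.eval x) = 0} : ℝ)] := by
  refine ⟨fun n R => ⟨cfForm_of_e2Star, e2Star_of_cfForm⟩, ?_⟩
  intro γ hγ hγ'
  have hpoly : ∀ P : Polynomial ℕ, DFun 1 (fun v => P.eval (v 0)) := by
    intro P
    induction P using Polynomial.induction_on' with
    | add p q hp hq => simpa using hp.add hq
    | monomial k a =>
      have hk : ∀ k : ℕ, DFun 1 (fun v => v 0 ^ k) := by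
        intro k
        induction k with
        | zero => simpa using DFun.const (n := 1) 1
        | succ k ih => simpa [pow_succ] using ih.mul (DFun.proj 0)
      simpa using (DFun.const a).mul (hk k)
  tfae_have 1 → 2 := by
    intro H b hb hbz
    have h := cf_val_e2 (n := 1) (p := fun v => nextPrime (v 0)) (t := fun v => v 0)
      (b := fun v t => b (v 0) t) (DFun.nextPrime (DFun.proj 0)) (fun v => nextPrime_prime _)
      (by
        refine (hb.rename (n := 3) ![0, 2, 1]).of_iff ?_
        intro w
        exact Iff.rfl) (fun v t => hbz _ _) (DFun.proj 0) 0 (by omega)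
    refine (H 1 _).mpr (h.of_iff ?_)
    intro v
    simp
  tfae_have 2 → 1 := by
    intro H k R
    exact ⟨fun h => h.e2Star, fun h => delta0_of_cf H h⟩
  tfae_have 1 → 3 := by
    intro H P b hb hbx
    have h := cf_val_e2 (n := 1) (p := fun v => nextPrime (P.eval (v 0)))
      (t := fun v => P.eval (v 0))
      (b := fun v t => b (v 0) t) (DFun.nextPrime (hpoly P)) (fun v => nextPrime_prime _)
      (by
        refine (hb.rename (n := 3) ![0, 2, 1]).of_iff ?_
        intro w
        exact Iff.rfl) (fun v t => hbx _ _) (hpoly P) 0 (by omega)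
    have h' := (H 1 _).mpr h
    refine ⟨0, fun w => cf (nextPrime (P.eval (w 1))) (b (w 1)) (P.eval (w 1)) = 0, ?_, ?_⟩
    · have h1 : Delta0 1 (fun v => cf (nextPrime (P.eval (v 0))) (b (v 0)) (P.eval (v 0)) = 0) :=
        h'.of_iff (fun v => by simp)
      exact Delta0.comp1 (P := fun x => cf (nextPrime (P.eval x)) (b x) (P.eval x) = 0) h1
        (DFun.proj 1)
    · filter_upwards with N
      refine ⟨0, Nat.zero_le _, ?_⟩
      have hN : (0 : ℝ) ≤ N := Nat.cast_nonneg N
      have h3 : (1 / 2 + γ) * (N : ℝ) ≤ N := by nlinarith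
      refine h3.trans (le_of_eq ?_)
      congr 1
      symm
      convert card_range N using 2
      ext x
      simp only [mem_filter]
      exact ⟨fun h => h.1, fun h => ⟨h, Iff.rfl⟩⟩
  tfae_have 3 → 1 := by
    intro H
    refine ((AverageCase.result γ hγ hγ').out 0 2).mpr ?_
    intro R hR
    obtain ⟨P, b, hb, hbp, hRP⟩ := cfForm_of_e2Star hR
    -- the polynomial in one variable
    have hex : ∃ P' : Polynomial ℕ, ∀ x : ℕ, P'.eval x = MvPolynomial.eval ![x] P := by
      clear hb hbp hRP
      induction P using MvPolynomial.induction_on with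
      | C a => exact ⟨Polynomial.C a, fun x => by simp⟩
      | add p q hp hq =>
        obtain ⟨p', hp'⟩ := hp
        obtain ⟨q', hq'⟩ := hq
        exact ⟨p' + q', fun x => by simp [hp', hq']⟩
      | mul_X p i hp =>
        obtain ⟨p', hp'⟩ := hp
        refine ⟨p' * Polynomial.X, fun x => ?_⟩
        have : i = 0 := Subsingleton.elim _ _
        simp [hp', this]
    obtain ⟨P', hP'⟩ := hex
    obtain ⟨c, ψ, hψ, hN⟩ := H P' (fun x t => b ![x] t) (by
      refine (hb.rename (n := 3) ![0, 2, 1]).of_iff ?_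
      intro w
      have e : (fun i : Fin 1 => w ((![0, 2, 1] : Fin 3 → Fin 3) i.succ.succ)) = ![w 1] := by
        funext i; fin_cases i; rfl
      rw [e]
      exact Iff.rfl) (fun x t => by rw [hP']; exact hbp _ _)
    refine ⟨c, fun w => ¬ ψ w, hψ.not, ?_⟩
    filter_upwards [hN] with N hN
    obtain ⟨a, ha, hcard⟩ := hN
    refine ⟨a, ha, hcard.trans (le_of_eq ?_)⟩
    congr 2
    ext x
    simp only [mem_filter]
    have h1 : (R x ↔ ¬ cf (nextPrime (P'.eval x)) (b ![x]) (P'.eval x) = 0) := by
      have : Fact (nextPrime (MvPolynomial.eval ![x] P)).Prime := ⟨nextPrime_prime _⟩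
      have h2 := hRP ![x]
      rw [hP']
      constructor
      · intro hx h
        have h3 := h2.1 hx
        exact one_ne_zero (h3.symm.trans h)
      · intro h
        by_contra hx
        exact h (h2.2 hx)
    rw [h1]
    tauto
  tfae_finish

end Pool.Agent.Results.MP_a56640_lc.ContinuedFractions
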