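import Mathlib
import Pool.Agent.PTr.Birk2

/-!
The functions with a bounded-formula graph and a polynomial bound are closed under limited recursion
whose step is affine with slopes `-1`, `0`, `1` on boundedly many intervals, and under summation of
step functions along such a recursion.
-/

set_option autoImplicit false

namespace Pool.Agent.Results.MP_a56640_lc.GentleRecursion

open Pool.Agent.Grz Pool.Agent.PTr Finset

/-- On `[0, N)` the function `T` is affine with slopes `-1`, `0`, `1` with at most `c` breakpoints:
for all but at most `c` of the `u` with `u + 2 < N` the three values `T u`, `T (u + 1)`, `T (u + 2)`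
increase by `1`, decrease by `1` or are equal. -/
def Gentle (c N : ℕ) (T : ℕ → ℕ) : Prop :=
  ∃ cut : Fin c → ℕ, ∀ u, u + 2 < N → (∀ j, cut j ≠ u) →
    (T (u + 1) = T u + 1 ∧ T (u + 2) = T u + 2) ∨
    (T u = T (u + 1) + 1 ∧ T u = T (u + 2) + 2) ∨ (T (u + 1) = T u ∧ T (u + 2) = T u)

/-- On `[0, N)` the function `w` has at most `d` jumps. -/
def StepFun (d N : ℕ) (w : ℕ → ℕ) : Prop :=
  ∃ cut : Fin d → ℕ, ∀ u, u + 1 < N → (∀ j, cut j ≠ u + 1) → w (u + 1) = w u

/-- **Main theorem.** Let `DFun` be the class of functions with a bounded-formula graph and a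
polynomial bound. If `N, x, t` (functions of `v`) and `T, w` (functions of `u` and `v`) are in `DFun`
and, for all `v`, `T (·, v)` is a map of `[0, N v)` to itself which is affine with slopes `-1, 0, 1`
with at most `c` breakpoints and `w (·, v)` has at most `d` jumps, then the `t v`-th iterate at `x v`
and the sum of `w` over the first `t v` points of the orbit are functions of `v` in `DFun`. -/
theorem result (c d n : ℕ) (N x t : (Fin n → ℕ) → ℕ) (T w : ℕ → (Fin n → ℕ) → ℕ)
    (hN : DFun n N) (hx : DFun n x) (ht : DFun n t)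
    (hT : DFun (n + 1) (fun v => T (v 0) (fun i => v i.succ)))
    (hw : DFun (n + 1) (fun v => w (v 0) (fun i => v i.succ)))
    (hxN : ∀ v, x v < N v) (hTN : ∀ v u, u < N v → T u v < N v)
    (hgentle : ∀ v, Gentle c (N v) (fun u => T u v))
    (hstep : ∀ v, StepFun d (N v) (fun u => w u v)) :
    DFun n (fun v => (fun u => T u v)^[t v] (x v)) ∧
    DFun n (fun v => ∑ j ∈ range (t v), w ((fun u => T u v)^[j] (x v)) v) := by
  have hlt : ∀ v j, (fun u => T u v)^[j] (x v) < N v := by
    intro v j
    induction j with
    | zero => exact hxN v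
    | succ j ih =>
      rw [Function.iterate_succ_apply']
      exact hTN v _ ih
  -- the graph with both values
  have key : ∀ {m : ℕ} {p : Fin n → (Fin m → ℕ) → ℕ} {y S : (Fin m → ℕ) → ℕ},
      (∀ i, DFun m (p i)) → DFun m y → DFun m S →
      Delta0 m (fun v => (fun u => T u (fun i => p i v))^[t (fun i => p i v)]
        (x (fun i => p i v)) = y v ∧
        ∑ j ∈ range (t (fun i => p i v)), w ((fun u => T u (fun i => p i v))^[j]
          (x (fun i => p i v))) (fun i => p i v) = S v) := by
    intro m p y S hp hy hS
    have h := aff_delta0 c d (N := fun v => N (fun i => p i v)) (x := fun v => x (fun i => p i v))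
      (y := y) (t := fun v => t (fun i => p i v)) (S := S)
      (T := fun u v => T u (fun i => p i v)) (w := fun u v => w u (fun i => p i v))
      (hN.comp hp) (hx.comp hp) hy (ht.comp hp) hS
      (DFun.app hT (DFun.proj 0) (fun i => (hp i).weak))
      (DFun.app hw (DFun.proj 0) (fun i => (hp i).weak))
      (fun v u hu => hTN _ u hu) (fun v => hgentle _) (fun v => hstep _)
    refine h.of_iff fun v => ?_
    exact ⟨fun h => ⟨hxN _, h.1, h.2⟩, fun h => ⟨h.2.1, h.2.2⟩⟩
  -- bounds
  obtain ⟨bw, hbw⟩ := hw.bound
  have hbwv : ∀ v u, u < N v → w u v ≤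
      MvPolynomial.eval (fun i => (Matrix.vecCons (N v) v : Fin (n + 1) → ℕ) i) bw := by
    intro v u hu
    refine (hbw (Matrix.vecCons u v)).trans ?_
    refine eval_mono bw fun i => ?_
    refine Fin.cases ?_ (fun j => ?_) i
    · exact hu.le
    · exact le_rfl
  have hBd : DFun n (fun v => t v *
      MvPolynomial.eval (fun i => (Matrix.vecCons (N v) v : Fin (n + 1) → ℕ) i) bw) := by
    refine ht.mul (DFun.evalPoly bw (h := fun i v => (Matrix.vecCons (N v) v : Fin (n + 1) → ℕ) i)
      fun i => ?_)
    refine Fin.cases ?_ (fun j => ?_) i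
    · exact hN
    · exact DFun.proj j
  have hsum : ∀ v, ∑ j ∈ range (t v), w ((fun u => T u v)^[j] (x v)) v ≤ t v *
      MvPolynomial.eval (fun i => (Matrix.vecCons (N v) v : Fin (n + 1) → ℕ) i) bw := by
    intro v
    refine (Finset.sum_le_sum fun j _ => hbwv v _ (hlt v j)).trans ?_
    rw [Finset.sum_const, Finset.card_range, smul_eq_mul]
  constructor
  · refine DFun.ofGraph hN (fun v => (hlt v _).le) ?_
    have h1 := Delta0.bexFun (n := n + 1) hBd.weak (P := fun S v =>
      (fun u => T u (fun i => v i.succ))^[t (fun i => v i.succ)] (x (fun i => v i.succ)) = v 0 ∧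
        ∑ j ∈ range (t (fun i => v i.succ)), w ((fun u => T u (fun i => v i.succ))^[j]
          (x (fun i => v i.succ))) (fun i => v i.succ) = S)
      (key (m := n + 1 + 1) (p := fun i v => v i.succ.succ) (y := fun v => v 1)
        (S := fun v => v 0) (fun i => DFun.proj _) (DFun.proj 1) (DFun.proj 0))
    refine h1.of_iff fun v => ?_
    constructor
    · intro h
      exact ⟨_, hsum _, h.symm, rfl⟩
    · rintro ⟨S, _, h, _⟩
      exact h.symm
  · refine DFun.ofGraph hBd hsum ?_
    have h1 := Delta0.bexFun (n := n + 1) hN.weak (P := fun y v =>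
      (fun u => T u (fun i => v i.succ))^[t (fun i => v i.succ)] (x (fun i => v i.succ)) = y ∧
        ∑ j ∈ range (t (fun i => v i.succ)), w ((fun u => T u (fun i => v i.succ))^[j]
          (x (fun i => v i.succ))) (fun i => v i.succ) = v 0)
      (key (m := n + 1 + 1) (p := fun i v => v i.succ.succ) (y := fun v => v 0)
        (S := fun v => v 1) (fun i => DFun.proj _) (DFun.proj 0) (DFun.proj 1))
    refine h1.of_iff fun v => ?_
    constructor
    · intro h
      exact ⟨_, (hlt _ _).le, rfl, h.symm⟩
    · rintro ⟨y, _, _, h⟩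
      exact h.symm

end Pool.Agent.Results.MP_a56640_lc.GentleRecursion
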