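import Pool.Agent.GOr.Top

/-!
# Orders of nilpotent groups over finite fields, inside bounded formulas

Positive case of `Delta0 = E2Star`. `DFun n` is the class of all functions on `ℕ ^ n` with a
bounded-formula graph and a polynomial bound.

Fixed are: the numbers `s`, `c`, `d`, `k`; a first-order formula `X` of the language of rings for
the domain, a set of vectors with `d` coordinates; a first-order formula `E` for the equality of the
elements that are given by two vectors; `d` rational functions `F` with case distinctions for the
coordinates of the product. All these have `k` parameters. The field is the field with `p ^ s`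
elements, given by the prime number `p` and by the coefficients `b` of the polynomial
`t ^ s + ∑ b_l t ^ l` of a generator `t`; the parameters are `∑ a_(i, l) t ^ l`.

There is one function `N` of `p`, `b`, `a` such that `N (m, b, a)` and the product of all
`N (p, b, a)`, `p` a prime divisor of `m`, are in the class for all functions `m`, `b`, `a` in the
class; its value is the order of the group if `X`, `E`, `F` define a group that is nilpotent of class
at most `c`, and `0` if not. Example: the number of the points over `K` of an abelian variety given
by equations and addition laws, with arbitrary coefficients (`Pool.Agent.GOr.Ex`).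
-/

set_option autoImplicit false

namespace Pool.Agent.Results.MP_a56640_lc.GroupOrders

open Pool.Agent.Grz Pool.Agent.PRc Pool.Agent.GOr

theorem result (s c d k : ℕ) (X : FirstOrder.Language.ring.Formula (Fin d ⊕ Fin k))
    (E : FirstOrder.Language.ring.Formula (Fin d ⊕ Fin d ⊕ Fin k))
    (F : Fin d → FF (Fin d ⊕ Fin d ⊕ Fin k)) (hF : ∀ i, PRF (F i)) :
    ∃ N : ℕ → (Fin s → ℕ) → (Fin k → Fin s → ℕ) → ℕ,
      (∀ (n : ℕ) (m : (Fin n → ℕ) → ℕ) (b : Fin s → (Fin n → ℕ) → ℕ)
        (a : Fin k → Fin s → (Fin n → ℕ) → ℕ), DFun n m → (∀ l, DFun n (b l)) →
        (∀ i l, DFun n (a i l)) →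
        DFun n (fun v => N (m v) (fun l => b l v) fun i l => a i l v) ∧
        DFun n (fun v => ∏ p ∈ (m v).primeFactors, N p (fun l => b l v) fun i l => a i l v)) ∧
      (∀ (p : ℕ) (b : Fin s → ℕ) (K : Type) [Field K] (t : K), IsField p s b K t →
        ∀ (a : Fin k → Fin s → ℕ) (G : Type) [Group G] (cls : (Fin d → K) → G),
          FoPresents c X E F K (fun i => elt t (a i)) G cls → N p b a = Nat.card G) ∧
      ∀ (p : ℕ) (b : Fin s → ℕ) (a : Fin k → Fin s → ℕ),
        (¬ ∃ (K : Type) (_ : Field K) (t : K) (G : Type) (_ : Group G)
          (cls : (Fin d → K) → G), IsField p s b K t ∧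
          FoPresents c X E F K (fun i => elt t (a i)) G cls) → N p b a = 0 :=
  top s c d k X E F hF

end Pool.Agent.Results.MP_a56640_lc.GroupOrders
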