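import Mathlib
import Pool.Agent.LPC.Main

/-!
The functions with a bounded-formula graph and a polynomial bound are closed under sums of products of
step functions over the lattice points of regions of fixed dimension given by inequalities.
-/

set_option autoImplicit false

namespace Pool.Agent.Results.MP_a56640_lc.LatticeSums

open Pool.Agent.Grz Pool.Agent.LPC Finset

open scoped Classical in
/-- **Main theorem.** Let `DFun n` be the class of functions of `v ∈ ℕ^n` with a bounded-formula
graph and a polynomial bound. Let `T i`, `i < k`, be step functions of `x ∈ ℕ^d` with parameter `v`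
and `R` a Boolean combination of inequalities between such functions. Then the sum of the products
`∏ i, T i x v` over the points `x` of `[0, B v) ^ d` with `R x v` is in `DFun n`. -/
theorem result (d n k : ℕ) (T : Fin k → (Fin d → ℕ) → (Fin n → ℕ) → ℕ)
    (hT : ∀ i, Step d n (T i)) (R : (Fin d → ℕ) → (Fin n → ℕ) → Prop) (hR : Rel d n R)
    (B : (Fin n → ℕ) → ℕ) (hB : DFun n B) :
    DFun n (fun v => ∑ x ∈ Fintype.piFinset (fun _ : Fin d => range (B v)) with R x v,
      ∏ i, T i x v) := by
  exact sum_def hT hR hB

end Pool.Agent.Results.MP_a56640_lc.LatticeSums
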