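import Mathlib
import Pool.Agent.MTr.Final
import Pool.Agent.GAvg.AverageCase

/-!
Orbits of piecewise affine maps with boundedly many boxes: the sets of integer matrices for which
they are definable by bounded formulas, and those for which they are as hard as Grzegorczyk's class.
-/

set_option autoImplicit false

namespace Pool.Agent.Results.MP_a56640_lc.MatrixDichotomy

open Pool.Agent.Grz Pool.Agent.PTr Pool.Agent.MTr MvPolynomial Filter Finset
open scoped Classical

/-- Data in `n` variables for maps of `[0, N)^r` with `k` boxes: `N`, the lower corners `a i` and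
the upper corners `b i` of the boxes, the translations `c i`, the start `x` and the target `y` are
given by polynomials. -/
structure Data (r k n : ℕ) where
  /-- the side of the cube -/
  N : MvPolynomial (Fin n) ℕ
  /-- the lower corners -/
  a : Fin k → Fin r → MvPolynomial (Fin n) ℕ
  /-- the upper corners -/
  b : Fin k → Fin r → MvPolynomial (Fin n) ℕ
  /-- the translations -/
  c : Fin k → Fin r → MvPolynomial (Fin n) ℕ
  /-- the start -/
  x : Fin r → MvPolynomial (Fin n) ℕ
  /-- the target -/
  y : Fin r → MvPolynomial (Fin n) ℕ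

variable {r k n : ℕ}

/-- The point `u` is in the `i`-th box, `a i ≤ u < b i`, for the value `v` of the variables. -/
def Data.In (D : Data r k n) (v : Fin n → ℕ) (i : Fin k) (u : Fin r → ℕ) : Prop :=
  ∀ l, eval v (D.a i l) ≤ u l ∧ u l < eval v (D.b i l)

/-- The map `u ↦ A i u + c i` modulo `N` for the first box `i` containing `u`; the value is `0` if
no box contains `u`. -/
noncomputable def Data.map (D : Data r k n) (A : Fin k → Matrix (Fin r) (Fin r) ℤ)
    (v : Fin n → ℕ) : (Fin r → ℕ) → Fin r → ℕ := fun u l =>
  ((∑ i : Fin k, if D.In v i u ∧ ∀ j, j < i → ¬ D.In v j u then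
    ∑ m, A i l m * (u m : ℤ) + (eval v (D.c i l) : ℤ) else 0) % (eval v D.N : ℤ)).toNat

/-- The start. -/
noncomputable def Data.start (D : Data r k n) (v : Fin n → ℕ) : Fin r → ℕ :=
  fun l => eval v (D.x l)

/-- The target. -/
noncomputable def Data.target (D : Data r k n) (v : Fin n → ℕ) : Fin r → ℕ :=
  fun l => eval v (D.y l)

/-- The map leads from the start to the target in exactly `t` steps. -/
def Data.HitsAt (D : Data r k n) (A : Fin k → Matrix (Fin r) (Fin r) ℤ)
    (t : MvPolynomial (Fin n) ℕ) (v : Fin n → ℕ) : Prop :=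
  0 < eval v D.N ∧ (D.map A v)^[eval v t] (D.start v) = D.target v

/-- The target is in the orbit of the start. -/
def Data.Hits (D : Data r k n) (A : Fin k → Matrix (Fin r) (Fin r) ℤ) (v : Fin n → ℕ) : Prop :=
  0 < eval v D.N ∧ ∃ t, (D.map A v)^[t] (D.start v) = D.target v

/-- All products of matrices of `S` have the characteristic polynomial `X ^ r`,
`X ^ (r - 1) * (X - 1)` or `X ^ (r - 1) * (X + 1)`. -/
def Tame (r : ℕ) (S : Set (Matrix (Fin r) (Fin r) ℤ)) : Prop :=
  ∀ M ∈ Subsemigroup.closure S, M.charpoly = Polynomial.X ^ r ∨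
    M.charpoly = Polynomial.X ^ (r - 1) * (Polynomial.X - 1) ∨
    M.charpoly = Polynomial.X ^ (r - 1) * (Polynomial.X + 1)

/-- The map `u ↦ u + (sum of the c i over the boxes containing u)` modulo `N`. -/
noncomputable def Data.trans (D : Data r k n) (v : Fin n → ℕ) : (Fin r → ℕ) → Fin r → ℕ :=
  fun u l => (u l + ∑ i : Fin k, if D.In v i u then eval v (D.c i l) else 0) % eval v D.N

/-- The target is in the orbit of the start under the piecewise translation. -/
def Data.TransHits (D : Data r k n) (v : Fin n → ℕ) : Prop :=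
  ∃ t, (D.trans v)^[t] (D.start v) = D.target v

/-- For all values of the variables the start and the target are in the cube and the piecewise
translation is a permutation of the cube. -/
def Data.IsPerm (D : Data r k n) : Prop :=
  ∀ v, 0 < eval v D.N ∧ (∀ l, D.start v l < eval v D.N) ∧ (∀ l, D.target v l < eval v D.N) ∧
    Set.BijOn (D.trans v) {u | ∀ l, u l < eval v D.N} {u | ∀ l, u l < eval v D.N}

theorem Data.map_eq (D : Data r k n) (A : Fin k → Matrix (Fin r) (Fin r) ℤ) (v : Fin n → ℕ) :
    D.map A v = amap A (eval v D.N) (fun i l => eval v (D.a i l)) (fun i l => eval v (D.b i l))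
      (fun i l => eval v (D.c i l)) := by
  funext u l
  unfold Data.map amap
  congr 2
  exact Finset.sum_congr rfl fun i _ => if_congr Iff.rfl rfl rfl

theorem Data.trans_eq (D : Data r k n) (v : Fin n → ℕ) :
    D.trans v = tmap 1 (eval v D.N) (fun i l => eval v (D.a i l)) (fun i l => eval v (D.b i l))
      (fun i l => eval v (D.c i l)) := by
  funext u l
  unfold Data.trans tmap
  rw [one_mul]
  congr 2
  exact Finset.sum_congr rfl fun i _ => if_congr Iff.rfl rfl rfl

theorem Data.dmap (D : Data r k n) (A : Fin k → Matrix (Fin r) (Fin r) ℤ) :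
    DMap n r (fun v => eval v D.N) (D.map A) := by
  have h := amap_dmap A (DFun.ofPoly D.N) (fun i l => DFun.ofPoly (D.a i l))
    (fun i l => DFun.ofPoly (D.b i l)) (fun i l => DFun.ofPoly (D.c i l))
  refine (?_ : D.map A = _) ▸ h
  funext v
  exact D.map_eq A v

theorem Data.hitsAt_e2Star (D : Data r k n) (A : Fin k → Matrix (Fin r) (Fin r) ℤ)
    (t : MvPolynomial (Fin n) ℕ) : E2Star n (D.HitsAt A t) :=
  (D.dmap A).iter_e2Star (DFun.ofPoly _) (fun _ => DFun.ofPoly _) (fun _ => DFun.ofPoly _)

theorem Data.hits_e2Star (D : Data r k n) (A : Fin k → Matrix (Fin r) (Fin r) ℤ) :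
    E2Star n (D.Hits A) :=
  (D.dmap A).orbit_e2Star (fun _ => DFun.ofPoly _) (fun _ => DFun.ofPoly _)

/-- **Main theorem.** First part: let `r ≥ 1` and let `S` be a set of integer matrices of size `r`.
If all products of matrices of `S` have the characteristic polynomial `X ^ r`,
`X ^ (r - 1) * (X - 1)` or `X ^ (r - 1) * (X + 1)`, then for all data and all matrices `A i` in `S`
the relation that the `t`-th iterate of the map leads from the start to the target is defined by a
bounded formula. Otherwise there is a `k₀` such that for each number `k ≥ k₀` of boxes it is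
equivalent that `Delta0` and `E2Star` are equal, that these relations with `A i` in `S` are in
`Delta0`, and that the relations that the target is in the orbit of the start are in `Delta0`.
Second part: for large `k` the orbit relations of the piecewise translations with `k` boxes which are
permutations of squares are exactly the relations in `E2Star`, and the equality is equivalent to
their predictability by bounded formulas with a parameter, for fractions `1 / 2 + γ` of the
values. -/
theorem result :
    -- the dichotomy for all dimensions and all sets of matrices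
    (∀ (r : ℕ) (S : Set (Matrix (Fin r) (Fin r) ℤ)), 1 ≤ r →
      (Tame r S → ∀ (k n : ℕ) (D : Data r k n) (A : Fin k → Matrix (Fin r) (Fin r) ℤ)
        (t : MvPolynomial (Fin n) ℕ), (∀ i, A i ∈ S) → Delta0 n (D.HitsAt A t)) ∧
      (¬ Tame r S → ∃ k₀, ∀ k, k₀ ≤ k → List.TFAE [
        ∀ (n : ℕ) (R : (Fin n → ℕ) → Prop), Delta0 n R ↔ E2Star n R,
        ∀ (n : ℕ) (D : Data r k n) (A : Fin k → Matrix (Fin r) (Fin r) ℤ)
          (t : MvPolynomial (Fin n) ℕ), (∀ i, A i ∈ S) → Delta0 n (D.HitsAt A t),
        ∀ (n : ℕ) (D : Data r k n) (A : Fin k → Matrix (Fin r) (Fin r) ℤ), (∀ i, A i ∈ S) →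
          Delta0 n (D.Hits A)])) ∧
    -- permutations of a square
    (∃ k₀, ∀ k, k₀ ≤ k →
      (∀ (n : ℕ) (R : (Fin n → ℕ) → Prop),
        E2Star n R ↔ ∃ D : Data 2 k n, D.IsPerm ∧ ∀ v, R v ↔ D.TransHits v) ∧
      ∀ γ : ℝ, 0 < γ → γ ≤ 1 / 2 → List.TFAE [
        ∀ (n : ℕ) (R : (Fin n → ℕ) → Prop), Delta0 n R ↔ E2Star n R,
        ∀ D : Data 2 k 1, D.IsPerm →
          ∃ (d : ℕ) (ψ : (Fin 2 → ℕ) → Prop), Delta0 2 ψ ∧ ∀ᶠ M : ℕ in atTop,
            ∃ a : ℕ, a ≤ (M + 2) ^ d ∧ (1 / 2 + γ) * (M : ℝ) ≤
              (#{x ∈ range M | ψ ![a, x] ↔ D.TransHits ![x]} : ℝ)]) := by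
  refine ⟨?_, ?_⟩
  · intro r S hr
    constructor
    · intro hS k n D A t hA
      have h := amap_delta0 hr A (TameSet.mono (S := Set.range A) (T := S) hS (by
        rintro _ ⟨i, rfl⟩
        exact hA i)) (DFun.ofPoly D.N) (DFun.ofPoly t) (fun i l => DFun.ofPoly (D.a i l))
        (fun i l => DFun.ofPoly (D.b i l)) (fun i l => DFun.ofPoly (D.c i l))
        (fun l => DFun.ofPoly (D.x l)) (fun l => DFun.ofPoly (D.y l))
      refine h.of_iff fun v => ?_
      rw [← D.map_eq A v]
      exact Iff.rfl
    · intro hS
      obtain ⟨k₀, hk₀⟩ := exists_hard (r := r) (S := S) hr hS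
      refine ⟨k₀, fun k hk => ?_⟩
      tfae_have 1 → 2 := by
        intro H n D A t _
        exact (H n _).2 (D.hitsAt_e2Star A t)
      tfae_have 2 → 3 := by
        intro H n D A hA
        have h1 := H (n + 1)
          ⟨rename Fin.succ D.N, fun i l => rename Fin.succ (D.a i l),
            fun i l => rename Fin.succ (D.b i l), fun i l => rename Fin.succ (D.c i l),
            fun l => rename Fin.succ (D.x l), fun l => rename Fin.succ (D.y l)⟩ A (X 0) hA
        have h3 := Delta0.bexFun (n := n) (b := fun v => enc r (fun _ => eval v D.N) + 1)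
          ((DFun.enc fun _ => DFun.ofPoly D.N).add (DFun.const 1))
          (P := fun t v => 0 < eval v D.N ∧ (D.map A v)^[t] (D.start v) = D.target v) (by
            refine h1.of_iff fun w => ?_
            unfold Data.HitsAt Data.start Data.target
            rw [Data.map_eq, Data.map_eq]
            simp only [eval_rename, eval_X]
            exact Iff.rfl)
        refine h3.of_iff fun v => ?_
        constructor
        · rintro ⟨hv, t, ht⟩
          obtain ⟨t', ht', he⟩ := (D.dmap A).iter_bdd (v := v) hv (D.start v) t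
          exact ⟨t', ht', hv, he.symm.trans ht⟩
        · rintro ⟨t, -, hv, ht⟩
          exact ⟨hv, t, ht⟩
      tfae_have 3 → 1 := by
        intro H n R
        refine ⟨fun h => h.e2Star, fun h => hk₀ k hk (orbA_of_poly ?_) n R h⟩
        intro A hA n N a b c x y
        refine (H n ⟨N, a, b, c, x, y⟩ A hA).of_iff fun v => ?_
        unfold Data.Hits
        rw [Data.map_eq]
        exact Iff.rfl
      tfae_finish
  · obtain ⟨k₀, hk₀⟩ := form2_univ
    refine ⟨k₀, fun k hk => ?_⟩
    have hB : ∀ (n : ℕ) (R : (Fin n → ℕ) → Prop),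
        E2Star n R ↔ ∃ D : Data 2 k n, D.IsPerm ∧ ∀ v, R v ↔ D.TransHits v := by
      intro n R
      constructor
      · intro hR
        obtain ⟨N, a, b, c, x, y, h⟩ := hk₀ k hk hR
        refine ⟨⟨N, a, b, c, x, y⟩, fun v => ?_, fun v => ?_⟩
        · refine ⟨(h v).1, (h v).2.1, (h v).2.2.1, ?_⟩
          rw [Data.trans_eq]
          exact (h v).2.2.2.1
        · rw [(h v).2.2.2.2]
          unfold Data.TransHits
          rw [Data.trans_eq]
          exact Iff.rfl
      · rintro ⟨D, hD, hR⟩
        have h := (zmap_dmap 1 (N := fun v => eval v D.N)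
          (a := fun i l v => eval v (D.a i l)) (b := fun i l v => eval v (D.b i l))
          (c := fun i l v => eval v (D.c i l)) (DFun.ofPoly _) (fun _ _ => DFun.ofPoly _)
          (fun _ _ => DFun.ofPoly _) (fun _ _ => DFun.ofPoly _)).orbit_e2Star
          (x := fun l v => eval v (D.x l)) (y := fun l v => eval v (D.y l))
          (fun _ => DFun.ofPoly _) (fun _ => DFun.ofPoly _)
        refine h.of_iff fun v => ?_
        rw [hR v]
        unfold Data.TransHits
        rw [Data.trans_eq]
        have e : zmap 1 (eval v D.N) (fun i l => eval v (D.a i l)) (fun i l => eval v (D.b i l))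
            (fun i l => eval v (D.c i l)) = tmap 1 (eval v D.N) (fun i l => eval v (D.a i l))
            (fun i l => eval v (D.b i l)) (fun i l => eval v (D.c i l)) := by
          rw [← zmap_natCast, Nat.cast_one]
        rw [← e]
        exact ⟨fun h' => ⟨(hD v).1, h'⟩, fun h' => h'.2⟩
    refine ⟨hB, ?_⟩
    intro γ hγ hγ'
    tfae_have 1 → 2 := by
      intro H D hD
      have h1 : Delta0 1 D.TransHits := (H 1 _).2 ((hB 1 _).2 ⟨D, hD, fun _ => Iff.rfl⟩)
      refine ⟨0, fun w => D.TransHits ![w 1], ?_, ?_⟩
      · have h2 : Delta0 1 (fun v => D.TransHits ![v 0]) := by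
          refine h1.of_iff fun v => ?_
          have : ![v 0] = v := by funext i; fin_cases i; rfl
          rw [this]
        exact Delta0.comp1 (P := fun x => D.TransHits ![x]) h2 (DFun.proj 1)
      · filter_upwards with M
        refine ⟨0, Nat.zero_le _, ?_⟩
        have hN : (0 : ℝ) ≤ M := Nat.cast_nonneg M
        have h3 : (1 / 2 + γ) * (M : ℝ) ≤ M := by nlinarith
        refine h3.trans (le_of_eq ?_)
        congr 1
        symm
        convert card_range M using 2
        ext x
        simp only [mem_filter]
        exact ⟨fun h => h.1, fun h => ⟨h, Iff.rfl⟩⟩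
    tfae_have 2 → 1 := by
      intro H
      refine ((AverageCase.result γ hγ hγ').out 0 2).mpr ?_
      intro R hR
      obtain ⟨D, hp, hD⟩ := (hB 1 _).1 hR
      obtain ⟨d, ψ, hψ, hN⟩ := H D hp
      refine ⟨d, ψ, hψ, ?_⟩
      filter_upwards [hN] with M hM
      obtain ⟨a, ha, hcard⟩ := hM
      refine ⟨a, ha, hcard.trans (le_of_eq ?_)⟩
      congr 2
      ext x
      simp only [mem_filter]
      have h1 : R x ↔ D.TransHits ![x] := hD ![x]
      rw [h1]
    tfae_finish

end Pool.Agent.Results.MP_a56640_lc.MatrixDichotomy
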