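import Pool.Agent.CvQ.End

/-!
# First-order formulas and numbers of points of curves modulo squarefree numbers, inside bounded formulas

Positive case of `Delta0 = E2Star`. `DFun n` is the class of all functions on `ℕ ^ n` with a bounded-formula graph and
a polynomial bound.

A first-order formula of the language of rings with `s` free variables and `k` parameters; a system of `r` polynomial
equations in `s` unknowns; the parameters and the coefficients are functions in the class of `v`; a modulus `m v` in
the class, given without factorisation. If `m v` is squarefree and modulo every prime divisor of `m v` the solution set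
of the system over the algebraic closure has dimension at most one, then the number of the solutions of the system in
`ZMod (m v)` for which the formula holds in the ring `ZMod (m v)` is a function in the class (and so is the condition).
For `s = 1`, `r = 0` there is no condition on the dimension: all first-order formulas in one variable.
-/

set_option autoImplicit false

namespace Pool.Agent.Results.MP_a56640_lc.PointCounts

open Finset Polynomial Pool.Agent.Grz Pool.Agent.CvS

/-- The value at `z` of the polynomial in `s` unknowns with exponents at most `d` and coefficients `c`. -/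
def val {s d : ℕ} {K : Type} [CommRing K] (c : (Fin s → Fin (d + 1)) → ℕ) (z : Fin s → K) : K :=
  ∑ e : Fin s → Fin (d + 1), (c e : K) * ∏ i, z i ^ (e i : ℕ)

/-- The set of the solutions in `K ^ s` of the system with the coefficients `c`. -/
def Sol {s d r : ℕ} (K : Type) [CommRing K] (c : Fin r → (Fin s → Fin (d + 1)) → ℕ) :
    Set (Fin s → K) := {z | ∀ l, val (c l) z = 0}

/-- The dimension of `S` is at most one: any two coordinates satisfy a nonzero polynomial on `S`. -/
def DimLeOne {K : Type} [Field K] {s : ℕ} (S : Set (Fin s → K)) : Prop :=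
  ∀ i j : Fin s, i < j → ∃ G : K[X][X], G ≠ 0 ∧ ∀ z ∈ S, G.evalEval (z i) (z j) = 0

/-- `m` is squarefree and modulo every prime divisor of `m` the solution set over the algebraic closure has
dimension at most one. -/
def Good {s d r : ℕ} (m : ℕ) (c : Fin r → (Fin s → Fin (d + 1)) → ℕ) : Prop :=
  Squarefree m ∧ ∀ p : ℕ, ∀ hp : p.Prime, p ∣ m →
    haveI := Fact.mk hp
    DimLeOne (Sol (AlgebraicClosure (ZMod p)) c)

/-- The first-order formula `φ` of the language of rings holds in the ring `R` for the elements `x`. -/
def Holds {α : Type} (φ : FirstOrder.Language.ring.Formula α) (R : Type) [CommRing R]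
    (x : α → R) : Prop :=
  letI := FirstOrder.Ring.compatibleRingOfRing R
  φ.Realize x

private theorem val_cast {s d : ℕ} (K : Type) [CommRing K] (c : (Fin s → Fin (d + 1)) → ℕ)
    (z : Fin s → ℕ) : ((sval c z : ℕ) : K) = val c (fun i => (z i : K)) := by
  unfold sval val
  simp only [Nat.cast_sum, Nat.cast_mul, Nat.cast_prod, Nat.cast_pow, Nat.cast_id]

open scoped Classical in
private theorem card_sol {s d r k m : ℕ} (hm : m ≠ 0) (c : Fin r → (Fin s → Fin (d + 1)) → ℕ)
    (φ : FirstOrder.Language.ring.Formula (Fin s ⊕ Fin k)) (a : Fin k → ℕ) :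
    Nat.card {z : Fin s → ZMod m // z ∈ Sol (ZMod m) c ∧
      Holds φ (ZMod m) (Sum.elim z fun i => (a i : ZMod m))} = CvQ.SNR m c φ a := by
  have : NeZero m := ⟨hm⟩
  have hcast : ∀ z : Fin s → ℕ, (fun i => ((Sum.elim z a i : ℕ) : ZMod m)) =
      Sum.elim (fun i => (z i : ZMod m)) fun i => (a i : ZMod m) := by
    intro z
    funext i
    rcases i with i | i <;> rfl
  have hS : {z : Fin s → ZMod m | z ∈ Sol (ZMod m) c ∧
      Holds φ (ZMod m) (Sum.elim z fun i => (a i : ZMod m))} =
      ↑(({z ∈ Fintype.piFinset fun _ : Fin s => range m | (∀ l, m ∣ sval (c l) z) ∧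
        CvQ.rf φ m (Sum.elim z a)} : Finset (Fin s → ℕ)).image fun z i => (z i : ZMod m)) := by
    ext w
    simp only [Finset.coe_image, Set.mem_image, Finset.mem_coe, Finset.mem_filter,
      Fintype.mem_piFinset, Finset.mem_range, Set.mem_ofPred_eq]
    constructor
    · rintro ⟨hw, hf⟩
      have hw' : (fun i => (((w i).val : ℕ) : ZMod m)) = w := by
        funext i
        simp only [ZMod.natCast_val, ZMod.cast_id', id_eq]
      refine ⟨fun i => (w i).val, ⟨fun i => ZMod.val_lt _, fun l => ?_, ?_⟩, hw'⟩
      · rw [← ZMod.natCast_eq_zero_iff, val_cast, hw']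
        exact hw l
      · unfold CvQ.rf
        rw [hcast, hw']
        exact hf
    · rintro ⟨z, ⟨_, h2, h3⟩, rfl⟩
      refine ⟨fun l => ?_, ?_⟩
      · rw [← val_cast, ZMod.natCast_eq_zero_iff]
        exact h2 l
      · unfold CvQ.rf at h3
        rw [hcast] at h3
        exact h3
  have e : Nat.card {z : Fin s → ZMod m // z ∈ Sol (ZMod m) c ∧
      Holds φ (ZMod m) (Sum.elim z fun i => (a i : ZMod m))} =
      Nat.card {z : Fin s → ZMod m | z ∈ Sol (ZMod m) c ∧
      Holds φ (ZMod m) (Sum.elim z fun i => (a i : ZMod m))} := rfl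
  rw [e, Nat.card_coe_set_eq, hS, Set.ncard_coe_finset, Finset.card_image_of_injOn]
  · rfl
  · intro z hz z' hz' h
    simp only [Finset.mem_coe, Finset.mem_filter, Fintype.mem_piFinset, Finset.mem_range] at hz hz'
    funext i
    have h1 : ((z i : ℕ) : ZMod m) = (z' i : ZMod m) := congrFun h i
    rw [ZMod.natCast_eq_natCast_iff] at h1
    have h2 : z i % m = z' i % m := h1
    rwa [Nat.mod_eq_of_lt (hz.1 i), Nat.mod_eq_of_lt (hz'.1 i)] at h2

open scoped Classical in
theorem result (s d r k n : ℕ) (φ : FirstOrder.Language.ring.Formula (Fin s ⊕ Fin k))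
    (m : (Fin n → ℕ) → ℕ) (c : Fin r → (Fin s → Fin (d + 1)) → (Fin n → ℕ) → ℕ)
    (a : Fin k → (Fin n → ℕ) → ℕ) (hm : DFun n m) (hc : ∀ l e, DFun n (c l e))
    (ha : ∀ i, DFun n (a i)) :
    DFun n (fun v => if Good (m v) (fun l e => c l e v) then
      Nat.card {z : Fin s → ZMod (m v) // z ∈ Sol (ZMod (m v)) (fun l e => c l e v) ∧
        Holds φ (ZMod (m v)) (Sum.elim z fun i => (a i v : ZMod (m v)))} else 0) := by
  have e : (fun v => if Good (m v) (fun l e => c l e v) then
      Nat.card {z : Fin s → ZMod (m v) // z ∈ Sol (ZMod (m v)) (fun l e => c l e v) ∧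
        Holds φ (ZMod (m v)) (Sum.elim z fun i => (a i v : ZMod (m v)))} else 0) =
      fun v => if Squarefree (m v) ∧
      (∀ p, p.Prime → p ∣ m v → Cv p fun l e => c l e v) then
        CvQ.SNR (m v) (fun l e => c l e v) φ (fun i => a i v) else 0 := by
    funext v
    have h1 : Good (m v) (fun l e => c l e v) ↔ Squarefree (m v) ∧
        (∀ p, p.Prime → p ∣ m v → Cv p fun l e => c l e v) := by
      refine and_congr_right fun _ => forall_congr' fun p => ?_
      constructor
      · intro h hp hd
        exact ⟨hp, h hp hd⟩
      · intro h hp hd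
        obtain ⟨_, h2⟩ := h hp hd
        exact h2
    by_cases h2 : Good (m v) (fun l e => c l e v)
    · rw [if_pos h2, if_pos (h1.1 h2)]
      exact card_sol h2.1.ne_zero _ _ _
    · rw [if_neg h2, if_neg (fun h => h2 (h1.2 h))]
  rw [e]
  exact CvQ.snr φ hm hc ha

end Pool.Agent.Results.MP_a56640_lc.PointCounts
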